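import Pool.Agent.H87.CLG.Targets

set_option autoImplicit false

open MvPolynomial
open scoped commutatorElement

namespace Pool.Agent.H68.CLG

open Pool.Agent.H87.CLG

universe u v

/-- the elements whose power with exponent `p ^ s` lies in `J` -/
def nilJ {R : Type} [CommRing R] (p : ℕ) (hp : p.Prime) (J : Ideal R) (hpJ : (p : R) ∈ J)
    (s : ℕ) : Ideal R where
  carrier := {f | f ^ (p ^ s) ∈ J}
  add_mem' := by
    intro a b ha hb
    obtain ⟨r, hr⟩ := exists_add_pow_prime_pow_eq hp a b s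
    change (a + b) ^ (p ^ s) ∈ J
    rw [hr]
    exact J.add_mem (J.add_mem ha hb)
      (J.mul_mem_right _ (J.mul_mem_right _ (J.mul_mem_right _ hpJ)))
  zero_mem' := by
    change (0 : R) ^ (p ^ s) ∈ J
    rw [zero_pow (pow_pos hp.pos s).ne']
    exact J.zero_mem
  smul_mem' := by
    intro c x hx
    change (c * x) ^ (p ^ s) ∈ J
    rw [mul_pow]
    exact J.mul_mem_left _ hx

theorem mem_nilJ {R : Type} [CommRing R] (p : ℕ) (hp : p.Prime) (J : Ideal R)
    (hpJ : (p : R) ∈ J) (s : ℕ) (f : R) : f ∈ nilJ p hp J hpJ s ↔ f ^ (p ^ s) ∈ J := Iff.rfl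

theorem pf_NIL (h : T_ACI) : T_NIL := by
  intro Λ _ I p hp hI
  set J : Ideal (PR Λ) := I ⊔ Ideal.span {(p : PR Λ)} with hJ
  have hpJ : (p : PR Λ) ∈ J := Ideal.mem_sup_right (Ideal.mem_span_singleton_self _)
  have hJst : Stable J := by
    intro σ hσ f hf
    obtain ⟨a, ha, b, hb, hab⟩ := Submodule.mem_sup.1 hf
    rw [← hab, map_add]
    refine J.add_mem (Ideal.mem_sup_left (hI σ hσ a ha)) (Ideal.mem_sup_right ?_)
    obtain ⟨c, hc⟩ := Ideal.mem_span_singleton.1 hb
    rw [hc, map_mul, map_natCast]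
    exact Ideal.mul_mem_right _ _ (Ideal.mem_span_singleton_self _)
  have hmono : Monotone (nilJ p hp J hpJ) := by
    refine monotone_nat_of_le_succ fun s f hf => ?_
    rw [mem_nilJ] at hf ⊢
    rw [pow_succ, pow_mul]
    exact J.pow_mem_of_mem hf _ hp.pos
  obtain ⟨s, hs⟩ := h Λ (nilJ p hp J hpJ) (fun s σ hσ f hf => by
    rw [mem_nilJ] at hf ⊢
    rw [← map_pow]
    exact hJst σ hσ _ hf) hmono
  refine ⟨s, fun f N hf => ?_⟩
  have h1 : f ∈ nilJ p hp J hpJ N := by
    rw [mem_nilJ]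
    have h2 : N ≤ p ^ N := (Nat.lt_pow_self hp.one_lt).le
    obtain ⟨k, hk⟩ := Nat.exists_eq_add_of_le h2
    rw [hk, pow_add]
    exact J.mul_mem_right _ hf
  have h2 : f ∈ nilJ p hp J hpJ (max N s) := hmono (le_max_left N s) h1
  rw [hs _ (le_max_right N s)] at h2
  exact h2

end Pool.Agent.H68.CLG
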