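import Pool.Agent.H87.CLG.Targets

set_option autoImplicit false

open MvPolynomial
open scoped commutatorElement

namespace Pool.Agent.H68.CLG

open Pool.Agent.H87.CLG

universe u v

theorem uni_ideal {B : Type u} [CommRing B] (M : ℕ) (s : Finset B) (hs : ∀ x ∈ s, x ^ M = 0) :
    (Ideal.span (s : Set B)) ^ (s.card * M + 1) = ⊥ := by
  classical
  induction s using Finset.induction_on with
  | empty => simp
  | insert x s hx ih =>
    have h1 := ih fun y hy => hs y (Finset.mem_insert_of_mem hy)
    rw [Finset.card_insert_of_notMem hx, Finset.coe_insert, Ideal.span_insert]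
    have h2 : (s.card + 1) * M + 1 = M + (s.card * M + 1) := by ring
    rw [h2, eq_bot_iff]
    refine (Ideal.sup_pow_add_le_pow_sup_pow).trans ?_
    rw [h1, Ideal.span_singleton_pow, hs x (Finset.mem_insert_self _ _)]
    simp

theorem uni_choose (D L m : ℕ) (hm : 1 ≤ m) (hmL : m ≤ L) :
    D ∣ (D * L.factorial).choose m := by
  rcases Nat.eq_zero_or_pos D with hD | hD
  · subst hD
    obtain ⟨k, rfl⟩ := Nat.exists_eq_add_of_le hm
    simp [Nat.choose_eq_zero_of_lt (show 0 < 1 + k by omega)]
  obtain ⟨q, hq⟩ := Nat.dvd_factorial (by omega : 0 < m) hmL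
  obtain ⟨k, rfl⟩ : ∃ k, m = k + 1 := ⟨m - 1, by omega⟩
  have hT : 0 < D * L.factorial := Nat.mul_pos hD (Nat.factorial_pos L)
  obtain ⟨t, ht⟩ : ∃ t, D * L.factorial = t + 1 := ⟨D * L.factorial - 1, by omega⟩
  have h1 := Nat.add_one_mul_choose_eq t k
  rw [← ht] at h1
  refine ⟨q * t.choose k, ?_⟩
  have h2 : (D * L.factorial).choose (k + 1) * (k + 1) = (D * (q * t.choose k)) * (k + 1) := by
    rw [← h1, hq]
    ring
  exact Nat.eq_of_mul_eq_mul_right (by omega) h2

theorem pf_UNI : T_UNI.{u} := by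
  intro B _ n D M z hD hM hz
  classical
  set L := n ^ 2 * M + 1 with hL
  set S : Finset B := Finset.univ.image fun q : Fin n × Fin n => z q.1 q.2 with hS
  have hmem : ∀ i j, z i j ∈ Ideal.span (S : Set B) := fun i j =>
    Ideal.subset_span (Finset.mem_coe.2 (Finset.mem_image.2 ⟨(i, j), Finset.mem_univ _, rfl⟩))
  have hcard : S.card ≤ n ^ 2 := by
    refine Finset.card_image_le.trans ?_
    simp [sq]
  have hpow : ∀ m i j, (z ^ m) i j ∈ (Ideal.span (S : Set B)) ^ m := by
    intro m
    induction m with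
    | zero => intro i j; simp
    | succ m ih =>
      intro i j
      have h1 : (z ^ (m + 1)) i j = ∑ l, (z ^ m) i l * z l j := by
        rw [pow_succ, Matrix.mul_apply]
      rw [h1, pow_succ]
      exact Ideal.sum_mem _ fun l _ => Ideal.mul_mem_mul (ih i l) (hmem l j)
  have hbot : (Ideal.span (S : Set B)) ^ L = ⊥ := by
    have h1 : (Ideal.span (S : Set B)) ^ (S.card * M + 1) = ⊥ := by
      refine uni_ideal M S fun x hx => ?_
      obtain ⟨q, _, rfl⟩ := Finset.mem_image.1 hx
      exact (hz q.1 q.2).2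
    rw [eq_bot_iff, ← h1]
    refine Ideal.pow_le_pow_right ?_
    have := Nat.mul_le_mul_right M hcard
    omega
  have hzL : ∀ m, L ≤ m → z ^ m = 0 := by
    intro m hm
    ext i j
    have h1 := Ideal.pow_le_pow_right hm (hpow m i j)
    rw [hbot] at h1
    simpa using h1
  have hDz : ∀ m, 1 ≤ m → (D : Matrix (Fin n) (Fin n) B) * z ^ m = 0 := by
    intro m hm
    obtain ⟨k, rfl⟩ : ∃ k, m = k + 1 := ⟨m - 1, by omega⟩
    have h1 : (D : Matrix (Fin n) (Fin n) B) * z = 0 := by
      ext i j
      have h2 := (hz i j).1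
      have h3 : (D : Matrix (Fin n) (Fin n) B) = Matrix.diagonal fun _ => (D : B) := by
        rw [← Matrix.diagonal_natCast]
      rw [h3, Matrix.diagonal_mul]
      simpa using h2
    rw [pow_succ', ← mul_assoc, h1, zero_mul]
  rw [add_comm, (Commute.one_right z).add_pow]
  rw [Finset.sum_eq_single 0]
  · simp
  · intro m _ hm0
    have hm1 : 1 ≤ m := Nat.one_le_iff_ne_zero.2 hm0
    by_cases hmL : L ≤ m
    · rw [hzL m hmL]; simp
    · obtain ⟨c, hc⟩ := uni_choose D L m hm1 (by omega)
      rw [hc]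
      push_cast
      rw [one_pow, mul_one, ← mul_assoc, (Nat.cast_commute D (z ^ m)).symm.eq, hDz m hm1, zero_mul]
  · intro h
    exact absurd (Finset.mem_range.2 (Nat.succ_pos _)) h

end Pool.Agent.H68.CLG
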